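import Pool.Agent.H.MP_797bdc_co.B

set_option autoImplicit false

namespace Pool.Agent.Results.MP_797bdc_co.DimTwo

open Pool.Agent.H.MP_797bdc_co

theorem result : ∀ n : ℕ, 3 ≤ n → ∀ T T' : Finset (Finset (Fin n)),
    Hypertree n 2 T → Collapsible 2 T → Hypertree n 2 T' → Collapsible 2 T' →
    Relation.ReflTransGen (Move n 2) T T' :=
  fun _ hn _ _ h1 h2 h3 h4 => main (by omega) ⟨h1, h2⟩ ⟨h3, h4⟩

end Pool.Agent.Results.MP_797bdc_co.DimTwo
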